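import Pool.Agent.helper33.SP.SpecC2S
import Pool.Agent.helper64.TP.Conv
import Pool.Agent.helper64.TP.BAll
import Pool.Agent.helper35.DP.BIND
import Pool.Agent.helper45.SP.UJ1

/-!
# sp:VA16. Conditional probability of four arms through the flipped block
-/

set_option autoImplicit false

namespace TP

open DP MeasureTheory

/-- The event that the coins of the bricks of the sites in `Λ` are those of `b₀`. -/
def VA16_cyl (Λ : Finset V) (b₀ : V → Bool) : Set (V → Bool) :=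
  {b | ∀ w ∈ Λ, b (br w) = b₀ (br w)}

theorem VA16_cyl_loc {Λ : Finset V} {A : Set V} (b₀ : V → Bool) (h : (Λ : Set V) ⊆ A) :
    Loc (VA16_cyl Λ b₀) A := by
  refine ⟨Λ, h, fun b b' hb => ?_⟩
  unfold VA16_cyl
  simp only [Set.mem_setOf_eq]
  constructor
  · intro h1 w hw
    rw [← hb w hw]
    exact h1 w hw
  · intro h1 w hw
    rw [hb w hw]
    exact h1 w hw

theorem VA16_cyl_pos (Λ : Finset V) (b₀ : V → Bool) : 0 < Pr (VA16_cyl Λ b₀) := by
  have h : VA16_cyl Λ b₀ = {b' | ∀ v ∈ brs Λ, b' v = b₀ v} := by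
    ext b
    simp only [VA16_cyl, Set.mem_setOf_eq, brs, Finset.mem_image]
    constructor
    · rintro h1 v ⟨w, hw, rfl⟩
      exact h1 w hw
    · intro h1 w hw
      exact h1 _ ⟨w, hw, rfl⟩
  unfold Pr
  rw [h, UJ1_cyl]
  positivity

/-- Events given the coins outside `A`, conditionally. -/
theorem VA16_cond {A : Set V} {Λ : Finset V} (b₀ : V → Bool) {E : Set (V → Bool)} {R : Set V}
    (hE : Loc E R) (hA : ∀ w ∈ Λ, br w ∉ A)
    (hc : ∀ w ∈ R, br w ∉ A → ∃ w' ∈ Λ, br w' = br w) :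
    Pr (VA16_cyl Λ b₀ ∩ E) = Pr (VA16_cyl Λ b₀) * cpr A E b₀ := by
  classical
  obtain ⟨T, hT1, hT2⟩ := hE
  have e1 : VA16_cyl Λ b₀ ∩ E = VA16_cyl Λ b₀ ∩ {b' | mx A b₀ b' ∈ E} := by
    ext b'
    constructor
    · rintro ⟨h1, h2⟩
      refine ⟨h1, ?_⟩
      refine (hT2 _ _ fun v hv => ?_).2 h2
      unfold mx
      by_cases hvA : br v ∈ A
      · rw [if_pos hvA]
      · rw [if_neg hvA]
        obtain ⟨w', hw', hw2⟩ := hc v (hT1 hv) hvA
        rw [← hw2]
        exact (h1 w' hw').symm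
    · rintro ⟨h1, h2⟩
      refine ⟨h1, ?_⟩
      refine (hT2 _ _ fun v hv => ?_).1 h2
      unfold mx
      by_cases hvA : br v ∈ A
      · rw [if_pos hvA]
      · rw [if_neg hvA]
        obtain ⟨w', hw', hw2⟩ := hc v (hT1 hv) hvA
        rw [← hw2]
        exact (h1 w' hw').symm
  have l1 : DP.Loc (VA16_cyl Λ b₀) (br '' (Λ : Set V)) :=
    (VA16_cyl_loc b₀ (Set.Subset.refl _)).coin
  have l2 : DP.Loc {b' | mx A b₀ b' ∈ E} A := by
    refine ⟨(brs T).filter (fun v => v ∈ A), ?_, ?_⟩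
    · intro v hv
      have := Finset.mem_coe.1 hv
      exact (Finset.mem_filter.1 this).2
    · intro b b' hb
      simp only [Set.mem_setOf_eq]
      refine hT2 _ _ fun v hv => ?_
      unfold mx
      by_cases hvA : br v ∈ A
      · rw [if_pos hvA, if_pos hvA]
        refine hb (br v) ?_
        rw [Finset.mem_coe, Finset.mem_filter]
        exact ⟨Finset.mem_image_of_mem _ hv, hvA⟩
      · rw [if_neg hvA, if_neg hvA]
  have hd : Disjoint (br '' (Λ : Set V)) A := by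
    rw [Set.disjoint_left]
    rintro _ ⟨w, hw, rfl⟩ hwA
    exact hA w hw hwA
  rw [e1, DP.Bindep_Pr hd l1 l2]
  rfl

theorem VA16 (h15 : VA15_stmt) (hGP : K.GP_stmt) (hLQ : K.LQ_stmt) : VA16_stmt := by
  classical
  obtain ⟨C, hC, i₁, h15⟩ := h15
  obtain ⟨c₄, hc₄, i₂, hGP⟩ := hGP
  obtain ⟨q1, q2, q3, q4, q5, q6⟩ := hLQ
  have : IsProbabilityMeasure P1 := UJ1_P1
  refine ⟨c₄ / C, by positivity, i₁ + i₂ + 1, ?_⟩
  intro z p h g b hz hp hh8 hg
  set A := Ag z p h with hAdef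
  set bt := flp (fI z p) b with hbt
  set a := p - g - 1 with ha
  set n := p + h + g + 2 with hn
  have hze : Even (z.1 + z.2) := Int.even_iff.2 hz
  -- powers
  have e3 : 2 ^ (p + 3) = 8 * 2 ^ p := by rw [pow_add]; ring
  have e4 : 2 ^ (p + 4) = 16 * 2 ^ p := by rw [pow_add]; ring
  have e6 : 2 ^ (p + 6) = 64 * 2 ^ p := by rw [pow_add]; ring
  have e7 : 2 ^ (p + 7) = 128 * 2 ^ p := by rw [pow_add]; ring
  have e8 : 256 * 2 ^ p ≤ 2 ^ (p + h) := by
    have : 2 ^ (p + 8) ≤ 2 ^ (p + h) := Nat.pow_le_pow_right (by norm_num) (by omega)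
    have e : 2 ^ (p + 8) = 256 * 2 ^ p := by rw [pow_add]; ring
    omega
  have e0 : 1 ≤ 2 ^ p := Nat.one_le_two_pow
  have hbrd : ∀ w : V, sd z (br w) ≤ sd z w + 1 ∧ sd z w ≤ sd z (br w) + 1 := by
    intro w
    have h5 : sd z (br w) ≤ sd z w + sd w (br w) := sd_triangle z w (br w)
    have h5' : sd z w ≤ sd z (br w) + sd (br w) w := sd_triangle z (br w) w
    have h6 := sd_br_le w
    rw [sd_comm (br w) w] at h5'
    omega
  have hnA : ∀ v : V, v ∉ A → sd z v ≤ 2 ^ p ∨ 2 ^ (p + h) ≤ sd z v := by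
    intro v hv
    by_contra hcon
    push Not at hcon
    exact hv ⟨hcon.1, hcon.2⟩
  -- the two cylinders
  set ΛX : Finset V := ((box_finite z (2 ^ (p + 3))).toFinset).filter (fun w => br w ∉ A) with hLX
  set ΛY : Finset V := ((ann_finite z (2 ^ (p + 7)) (2 ^ n)).toFinset).filter (fun w => br w ∉ A)
    with hLY
  have memX : ∀ w, w ∈ ΛX ↔ sd z w ≤ 2 ^ (p + 3) ∧ br w ∉ A := by
    intro w
    rw [hLX, Finset.mem_filter, Set.Finite.mem_toFinset]
    rfl
  have memY : ∀ w, w ∈ ΛY ↔ (2 ^ (p + 7) ≤ sd z w ∧ sd z w ≤ 2 ^ n) ∧ br w ∉ A := by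
    intro w
    rw [hLY, Finset.mem_filter, Set.Finite.mem_toFinset]
    rfl
  have subX : (ΛX : Set V) ⊆ box z (2 ^ (p + 3)) := fun w hw => ((memX w).1 hw).1
  have subY : (ΛY : Set V) ⊆ ann z (2 ^ (p + 7)) (2 ^ n) := fun w hw => ((memY w).1 hw).1
  have lX : Loc (VA16_cyl ΛX bt) (box z (2 ^ (p + 3))) := VA16_cyl_loc bt subX
  have lY : Loc (VA16_cyl ΛY bt) (ann z (2 ^ (p + 7)) (2 ^ n)) := VA16_cyl_loc bt subY
  -- coverage
  have covX : ∀ v : V, (v.1 + v.2) % 2 = 0 → sd z v ≤ 2 ^ p → v ∉ A → v ∈ ΛX := by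
    intro v hv h1 h2
    rw [memX, br_of_even hv]
    exact ⟨by omega, h2⟩
  have covY : ∀ w : V, sd z w ≤ 2 ^ n → 2 ^ (p + h) ≤ sd z (br w) → br w ∉ A → w ∈ ΛY := by
    intro w h1 h2 h3
    rw [memY]
    have := hbrd w
    exact ⟨⟨by omega, h1⟩, h3⟩
  have S1 : Loc (S4 z a (p + 4)) (ann z (2 ^ a) (2 ^ (p + 4))) := q2 z a (p + 4) (by omega)
  have hfl : Loc {b | (fun v => !(b v)) ∈ S4 z a (p + 4)} (ann z (2 ^ a) (2 ^ (p + 4))) := by
    obtain ⟨T, hT1, hT2⟩ := S1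
    refine ⟨T, hT1, fun b b' hb => ?_⟩
    simp only [Set.mem_setOf_eq]
    refine hT2 _ _ fun v hv => ?_
    rw [hb v hv]
  -- (1)
  have r1 : Pr (VA16_cyl ΛX bt ∩ {b | (fun v => !(b v)) ∈ S4 z a (p + 4)}) =
      Pr (VA16_cyl ΛX bt) * cpr A {b | (fun v => !(b v)) ∈ S4 z a (p + 4)} bt := by
    refine VA16_cond bt hfl (fun w hw => ((memX w).1 hw).2) fun w hw hwA => ?_
    have hw2 : sd z w ≤ 2 ^ (p + 4) := hw.2
    have h1 := hbrd w
    refine ⟨br w, covX _ (br_even w) ?_ hwA, br_br w⟩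
    rcases hnA _ hwA with h2 | h2
    · exact h2
    · omega
  -- (2)
  have B1 : Loc (B4 z (p + 6) n) (ann z (2 ^ (p + 6)) (2 ^ n)) := q3 z (p + 6) n (by omega)
  have r2 : Pr (VA16_cyl ΛY bt ∩ B4 z (p + 6) n) =
      Pr (VA16_cyl ΛY bt) * cpr A (B4 z (p + 6) n) bt := by
    refine VA16_cond bt B1 (fun w hw => ((memY w).1 hw).2) fun w hw hwA => ?_
    have hw1 : 2 ^ (p + 6) ≤ sd z w := hw.1
    have hw2 : sd z w ≤ 2 ^ n := hw.2
    have h1 := hbrd w
    refine ⟨w, covY w hw2 ?_ hwA, rfl⟩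
    rcases hnA _ hwA with h2 | h2
    · omega
    · exact h2
  have r2' : cpr A (B4 z (p + 6) n) bt = cpr A (B4 z (p + 6) n) b := by
    unfold cpr
    congr 1
    obtain ⟨T, hT1, hT2⟩ := B1
    ext b'
    simp only [Set.mem_setOf_eq]
    refine hT2 _ _ fun w hw => ?_
    have hw1 : 2 ^ (p + 6) ≤ sd z w := (hT1 hw).1
    have h1 := hbrd w
    unfold mx
    by_cases hwA : br w ∈ A
    · rw [if_pos hwA, if_pos hwA]
    · rw [if_neg hwA, if_neg hwA, hbt]
      unfold flp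
      rw [if_neg]
      intro h2
      have h3 : sd z (br w) ≤ 2 ^ p := h2
      omega
  -- (3)
  have T1 : Loc (thr z p h g) (ann z (2 ^ a) (2 ^ (p + h + g + 1))) := q1 z a (p + h + g + 1)
  have hunion : VA16_cyl (ΛX ∪ ΛY) bt = VA16_cyl ΛX bt ∩ VA16_cyl ΛY bt := by
    ext b'
    simp only [VA16_cyl, Set.mem_setOf_eq, Set.mem_inter_iff, Finset.mem_union]
    constructor
    · intro h1
      exact ⟨fun w hw => h1 w (Or.inl hw), fun w hw => h1 w (Or.inr hw)⟩
    · rintro ⟨h1, h2⟩ w (hw | hw)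
      · exact h1 w hw
      · exact h2 w hw
  have r3 : Pr (VA16_cyl (ΛX ∪ ΛY) bt ∩ thr z p h g) =
      Pr (VA16_cyl (ΛX ∪ ΛY) bt) * cpr A (thr z p h g) bt := by
    refine VA16_cond bt T1 (fun w hw => ?_) fun w hw hwA => ?_
    · rcases Finset.mem_union.1 hw with h1 | h1
      · exact ((memX w).1 h1).2
      · exact ((memY w).1 h1).2
    · have hw2 : sd z w ≤ 2 ^ (p + h + g + 1) := hw.2
      have hw3 : 2 ^ (p + h + g + 1) ≤ 2 ^ n := Nat.pow_le_pow_right (by norm_num) (by omega)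
      rcases hnA _ hwA with h2 | h2
      · exact ⟨br w, Finset.mem_union_left _ (covX _ (br_even w) h2 hwA), br_br w⟩
      · exact ⟨w, Finset.mem_union_right _ (covY w (hw2.trans hw3) h2 hwA), rfl⟩
  have r3' : Pr (VA16_cyl ΛX bt ∩ VA16_cyl ΛY bt) =
      Pr (VA16_cyl ΛX bt) * Pr (VA16_cyl ΛY bt) := by
    have l1 : DP.Loc (VA16_cyl ΛX bt) (br '' (ΛX : Set V)) :=
      (VA16_cyl_loc bt (Set.Subset.refl _)).coin
    have l2 : DP.Loc (VA16_cyl ΛY bt) (br '' (ΛY : Set V)) :=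
      (VA16_cyl_loc bt (Set.Subset.refl _)).coin
    refine DP.Bindep_Pr ?_ l1 l2
    rw [Set.disjoint_left]
    rintro _ ⟨w, hw, rfl⟩ ⟨w', hw', e⟩
    have h1 := (memX w).1 hw
    have h2 := (memY w').1 hw'
    have h3 := hbrd w
    have h4 := hbrd w'
    rw [e] at h4
    omega
  -- (4)
  have r4 : cpr A {b | (fun v => !(b v)) ∈ S4 z a (p + 4)} bt = cpr A (S4 z a (p + 4)) b := by
    have l3 : Loc {b' | mx A b b' ∈ S4 z a (p + 4)} Set.univ := by
      obtain ⟨T, hT1, hT2⟩ := S1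
      refine ⟨T, Set.subset_univ _, fun b1 b2 hb => ?_⟩
      simp only [Set.mem_setOf_eq]
      refine hT2 _ _ fun v hv => ?_
      unfold mx
      by_cases hvA : br v ∈ A
      · rw [if_pos hvA, if_pos hvA]
        exact hb v hv
      · rw [if_neg hvA, if_neg hvA]
    have h5 := Bflip (Equiv.refl V) _ _ l3
    unfold cpr
    rw [← h5]
    congr 1
    obtain ⟨T, hT1, hT2⟩ := S1
    ext b'
    simp only [Set.mem_setOf_eq]
    refine hT2 _ _ fun w hw => ?_
    have hw2 : sd z w ≤ 2 ^ (p + 4) := (hT1 hw).2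
    have h1 := hbrd w
    unfold mx
    by_cases hwA : br w ∈ A
    · rw [if_pos hwA, if_pos hwA]
      rfl
    · rw [if_neg hwA, if_neg hwA, hbt]
      unfold flp
      rw [if_pos]
      · simp
      · show sd z (br w) ≤ 2 ^ p
        rcases hnA _ hwA with h2 | h2
        · exact h2
        · omega
  -- the inequalities
  have s1 := h15 z a (p + 4) (VA16_cyl ΛX bt) hze (by omega) (by omega) lX
  have s2 := hGP z (Dfree true z (2 ^ a)) (VA16_cyl ΛX bt) (VA16_cyl ΛY bt) (p + 4) n hze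
    (by omega) (by omega) ?_ (lX.mono ?_) lY
  · have s3 : Pr (VA16_cyl ΛX bt ∩ (VA16_cyl ΛY bt ∩
        Ev fun c => Std c 4 true z (2 ^ n) (Dfree true z (2 ^ a)))) ≤
        Pr (VA16_cyl (ΛX ∪ ΛY) bt ∩ thr z p h g) := by
      refine measureReal_mono ?_ (measure_ne_top _ _)
      rintro b' ⟨h1, h2, h3⟩
      refine ⟨?_, ?_⟩
      · rw [hunion]
        exact ⟨h1, h2⟩
      · have h4 : b' ∈ F4 z a n := q5 z a n hze (by omega) (by omega) h3
        exact q4 z a a (p + h + g + 1) n (by omega) (by omega) (by omega) h4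
    rw [r3, hunion, r3'] at s3
    rw [r1, r4] at s1
    have s2' : c₄ * (Pr (VA16_cyl ΛX bt ∩ S4 z a (p + 4 + 1)) *
        Pr (VA16_cyl ΛY bt ∩ B4 z (p + 6) n)) ≤ _ := s2
    rw [r2, r2'] at s2'
    have pX := VA16_cyl_pos ΛX bt
    have pY := VA16_cyl_pos ΛY bt
    set PX := Pr (VA16_cyl ΛX bt)
    set PY := Pr (VA16_cyl ΛY bt)
    set α := cpr A (S4 z a (p + 4)) b
    set β := cpr A (B4 z (p + 6) n) b
    set γ := cpr A (thr z p h g) bt
    set S := Pr (VA16_cyl ΛX bt ∩ S4 z a (p + 4 + 1))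
    have hβ : 0 ≤ β := measureReal_nonneg
    have key : c₄ * (PX * α * (PY * β)) ≤ C * (PX * PY * γ) := by
      calc c₄ * (PX * α * (PY * β)) ≤ c₄ * (C * S * (PY * β)) := by
            have : PX * α * (PY * β) ≤ C * S * (PY * β) :=
              mul_le_mul_of_nonneg_right s1 (mul_nonneg pY.le hβ)
            exact mul_le_mul_of_nonneg_left this hc₄.le
        _ = C * (c₄ * (S * (PY * β))) := by ring
        _ ≤ C * (PX * PY * γ) := mul_le_mul_of_nonneg_left (s2'.trans s3) hC.le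
    have key2 : (PX * PY) * (c₄ * (α * β)) ≤ (PX * PY) * (C * γ) := by
      calc (PX * PY) * (c₄ * (α * β)) = c₄ * (PX * α * (PY * β)) := by ring
        _ ≤ C * (PX * PY * γ) := key
        _ = (PX * PY) * (C * γ) := by ring
    have key3 : c₄ * (α * β) ≤ C * γ := le_of_mul_le_mul_left key2 (mul_pos pX pY)
    rw [div_mul_eq_mul_div, div_le_iff₀ hC]
    calc c₄ * (α * β) ≤ C * γ := key3
      _ = γ * C := by ring
  · unfold Dat.ok Dfree
    simp only [if_true]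
    have ham : 2 ^ a ≤ 2 ^ (p + 4) := Nat.pow_le_pow_right (by norm_num) (by omega)
    refine ⟨fun _ v hv => ?_, fun _ v hv => ?_⟩
    · have : sd z v = 2 ^ a := hv
      show sd z v ≤ 2 ^ (p + 4)
      omega
    · have : sd z v < 2 ^ a := hv
      show sd z v ≤ 2 ^ (p + 4)
      omega
  · intro v hv
    have : sd z v ≤ 2 ^ (p + 3) := hv
    show sd z v ≤ 2 ^ (p + 4)
    omega

end TP

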