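import Pool.Agent.helper3.SP.SpecPP

/-!
# sp:PP4. Inclusion of the bad event
-/

set_option autoImplicit false

namespace TP

open DP MeasureTheory

/-- The four sides of a rectangle are far from the centre of a box inside. -/
theorem PP4_side {x : V} {n : ℕ} {a b d e : ℤ} (h : box x n ⊆ rect a b d e) (u : V) :
    (u.1 = a → n ≤ sd x u) ∧ (u.1 = b → n ≤ sd x u) ∧ (u.2 = d → n ≤ sd x u) ∧
      (u.2 = e → n ≤ sd x u) := by
  have hmem : ∀ v : V, sd x v ≤ n → a ≤ v.1 ∧ v.1 ≤ b ∧ d ≤ v.2 ∧ v.2 ≤ e := fun v hv => h hv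
  have h1 := hmem (x.1 - n, x.2) (by simp only [sd]; omega)
  have h2 := hmem (x.1 + n, x.2) (by simp only [sd]; omega)
  have h3 := hmem (x.1, x.2 - n) (by simp only [sd]; omega)
  have h4 := hmem (x.1, x.2 + n) (by simp only [sd]; omega)
  simp only at h1 h2 h3 h4
  simp only [sd]
  refine ⟨fun h => ?_, fun h => ?_, fun h => ?_, fun h => ?_⟩ <;> omega

/-- Recolouring a brick near the centre, no four arms. -/
theorem PP4_four (hUJ11 : UJ11_stmt) (c : V → Bool) (x v : V) (t N : ℕ) (W A B : Set V)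
    (hv : sd x v ≤ 2 ^ (t + 1)) (hN : t + 3 ≤ N) (hbox : box x (2 ^ N) ⊆ W)
    (hA : ∀ u ∈ A, 2 ^ N ≤ sd x u) (hB : ∀ u ∈ B, 2 ^ N ≤ sd x u) (h1 : Hcn W A B c)
    (h2 : ¬ Hcn W A B (rc c v false)) : four c x (2 ^ (t + 2)) (2 ^ N) := by
  by_contra hf
  obtain ⟨u, hu, w, hw, hc⟩ := h1
  apply h2
  have e1 : 2 ^ (t + 2) = 2 * 2 ^ (t + 1) := by rw [pow_succ]; ring
  have e2 : 2 ≤ 2 ^ (t + 1) := by
    have : 2 ^ 1 ≤ 2 ^ (t + 1) := Nat.pow_le_pow_right (by norm_num) (by omega)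
    simpa using this
  have h3 : 2 ^ (t + 2) < 2 ^ N := Nat.pow_lt_pow_right (by norm_num) (by omega)
  refine ⟨u, hu, w, hw, ?_⟩
  refine (hUJ11 c (rc c v false) W x u w (2 ^ (t + 2)) (2 ^ N) Nat.one_le_two_pow h3 hf
    (fun q hq => ?_) hbox (hA u hu) (hB w hw)).1 hc
  unfold rc
  rw [if_neg]
  intro hbr
  have h4 := br_eq_sd hbr
  have h5 := sd_triangle x v q
  have h6 := sd_comm v q
  omega

theorem PP4 (hPP2 : PP2_stmt) (hPP3 : PP3_stmt) (hUJ11 : UJ11_stmt) : PP4_stmt := by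
  intro g s hg hs i N t m J p x ht hm hJ hN hbox b hb
  obtain ⟨⟨v, hv, hvt⟩, hP⟩ := hb
  have hside := PP4_side hbox
  have hvV : v ∈ VV i := hv.1
  obtain ⟨q1, q2, q3, q4⟩ := hPP2 i b v hvV
  have key : ∀ j < J, ¬ ((b ∈ Fc i ∧ b ∈ YPe g x (p j) m s) ∨
      (b ∉ Fc i ∧ (fun v => !(b v)) ∈ YPe g x (p j) m s)) := by
    intro j hj hor
    obtain ⟨h1, h2⟩ := hJ j hj
    apply hP j hj
    have f1 : 2 ^ (t + 1) + 2 ≤ 2 ^ (p j - g - 4) := by
      have a1 : 2 ^ (t + 4) ≤ 2 ^ (p j - g - 4) := Nat.pow_le_pow_right (by norm_num) (by omega)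
      have a2 : 2 ^ (t + 4) = 8 * 2 ^ (t + 1) := by rw [pow_add, pow_add]; ring
      have a3 : 1 ≤ 2 ^ (t + 1) := Nat.one_le_two_pow
      omega
    have f2 : 2 ^ (p j - g - 4) < 2 ^ (p j - 4) := Nat.pow_lt_pow_right (by norm_num) (by omega)
    have f3 : 2 ^ (p j - 4) + 1 ≤ 2 ^ (p j + 1) := by
      have : 2 ^ (p j - 4) < 2 ^ (p j + 1) := Nat.pow_lt_pow_right (by norm_num) (by omega)
      omega
    have f4 : 2 ^ (p j - 4) < 2 ^ (p j + m + 3 * s + m + 4) :=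
      Nat.pow_lt_pow_right (by norm_num) (by omega)
    have f5 : 2 ^ (p j + m + 3 * s + m - 1) + 1 ≤ 2 ^ (p j + m + 3 * s + m + 4) := by
      have : 2 ^ (p j + m + 3 * s + m - 1) < 2 ^ (p j + m + 3 * s + m + 4) :=
        Nat.pow_lt_pow_right (by norm_num) (by omega)
      omega
    have f6 : 2 ^ (p j + m + 3 * s + m + 4) < 2 ^ (p j + m + 3 * s + m + 4 + g) :=
      Nat.pow_lt_pow_right (by norm_num) (by omega)
    have f7 : sd x (yy true x (2 ^ (p j + m + s))) + 2 ^ (p j + 1) ≤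
        2 ^ (p j + m + 3 * s + m + 4 + g) := by
      have a1 : sd x (yy true x (2 ^ (p j + m + s))) = 2 ^ (p j + m + s) := by
        unfold yy sd
        simp only [if_true]
        push_cast
        have : (0 : ℤ) ≤ 2 ^ (p j + m + s) := by positivity
        have e1 : (x.1 - (x.1 + 2 ^ (p j + m + s))) = -(2 ^ (p j + m + s) : ℤ) := by ring
        rw [e1, Int.natAbs_neg, sub_self, Int.natAbs_zero, Nat.max_zero, Int.natAbs_pow]
        rfl
      have a2 : 2 ^ (p j + 1) ≤ 2 ^ (p j + m + s) := Nat.pow_le_pow_right (by norm_num) (by omega)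
      have a3 : 2 ^ (p j + m + s + 1) ≤ 2 ^ (p j + m + 3 * s + m + 4 + g) :=
        Nat.pow_le_pow_right (by norm_num) (by omega)
      have a4 : 2 ^ (p j + m + s + 1) = 2 * 2 ^ (p j + m + s) := by rw [pow_succ]; ring
      omega
    have f8 : box x (2 ^ (p j + m + 3 * s + m + 4 + g)) ⊆
        rect 1 (2 * 2 ^ i) 0 (hh (2 ^ i)) := by
      refine Set.Subset.trans ?_ hbox
      intro w hw
      have a1 : sd x w ≤ 2 ^ (p j + m + 3 * s + m + 4 + g) := hw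
      have a2 : 2 ^ (p j + m + 3 * s + m + 4 + g) ≤ 2 ^ N :=
        Nat.pow_le_pow_right (by norm_num) (by omega)
      exact a1.trans a2
    exact hPP3 i b x (yy true x (2 ^ (p j + m + s))) (2 ^ (p j - g - 4)) (2 ^ (p j - 4))
      (2 ^ (p j + m + 3 * s + m + 4)) (2 ^ (p j + m + 3 * s + m + 4 + g)) (2 ^ (p j + 1))
      (2 ^ (p j + m + 3 * s + m - 1)) (2 ^ (t + 1)) f1 f2 f3 f4 f5 f6 f7 f8 ⟨v, hv, hvt⟩ hor
  by_cases hF : b ∈ Fc i
  · left
    refine ⟨?_, fun j hj h => key j hj (Or.inl ⟨hF, h⟩)⟩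
    exact PP4_four hUJ11 (col b) x v t N _ _ _ hvt hN hbox (fun u hu => (hside u).1 hu)
      (fun u hu => (hside u).2.1 hu) (q1.1 hF) ((q3 hF).1 hv)
  · right
    refine ⟨?_, fun j hj h => key j hj (Or.inr ⟨hF, h⟩)⟩
    exact PP4_four hUJ11 (fl (col b)) x v t N _ _ _ hvt hN hbox (fun u hu => (hside u).2.2.1 hu)
      (fun u hu => (hside u).2.2.2 hu) (q2.1 hF) ((q4 hF).1 hv)

end TP

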