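import Pool.Agent.helper31.SP.SpecTL

/-! # sp: TL13, number of points of a box -/

namespace TP

open DP MeasureTheory

/-- A finite set of sites at distance at most `r` from `u` has at most `(2 r + 1) ^ 2` elements. -/
theorem TL13_card (s : Finset V) (u : V) (r : ℕ) (h : ∀ v ∈ s, sd u v ≤ r) :
    s.card ≤ (2 * r + 1) * (2 * r + 1) := by
  have h1 : s ⊆ (Finset.Icc (u.1 - r) (u.1 + r)) ×ˢ (Finset.Icc (u.2 - r) (u.2 + r)) := by
    intro v hv
    have := sd_le_iff.1 (h v hv)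
    simp only [Finset.mem_product, Finset.mem_Icc]
    exact this
  have h2 := Finset.card_le_card h1
  rw [Finset.card_product, Int.card_Icc, Int.card_Icc] at h2
  have h3 : ∀ a : ℤ, (a + r + 1 - (a - r)).toNat = 2 * r + 1 := by
    intro a
    omega
  rw [h3, h3] at h2
  exact h2

theorem TL13 : TL13_stmt := by
  intro i l t x u
  constructor
  · have h1 := TL13_card ((bxF i x (2 ^ t)).filter fun v => sd u v < 2 ^ (l + 1)) u (2 ^ (l + 1))
      (fun v hv => (Finset.mem_filter.1 hv).2.le)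
    have h2 : (((bxF i x (2 ^ t)).filter fun v => sd u v < 2 ^ (l + 1)).card : ℝ) ≤
        (2 * 2 ^ (l + 1) + 1) * (2 * 2 ^ (l + 1) + 1) := by exact_mod_cast h1
    refine h2.trans ?_
    have h4 : (1 : ℝ) ≤ 2 ^ l := one_le_pow₀ (by norm_num)
    have h5 : (4 : ℝ) ^ l = 2 ^ l * 2 ^ l := by
      rw [← mul_pow]; norm_num
    rw [h5, pow_succ]
    nlinarith
  · have h1 := TL13_card (bxF i x (2 ^ t)) x (2 ^ t) (fun v hv => (Finset.mem_filter.1 hv).2)
    have h2 : ((bxF i x (2 ^ t)).card : ℝ) ≤ (2 * 2 ^ t + 1) * (2 * 2 ^ t + 1) := by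
      exact_mod_cast h1
    refine h2.trans ?_
    have h4 : (1 : ℝ) ≤ 2 ^ t := one_le_pow₀ (by norm_num)
    have h5 : (4 : ℝ) ^ t = 2 ^ t * 2 ^ t := by
      rw [← mul_pow]; norm_num
    rw [h5]
    nlinarith

end TP

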