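import Pool.Agent.helper33.SP.SpecC1S

/-! # sp: UJ18, lower bound of the weights -/

namespace TP

open DP MeasureTheory

instance UJ18_prob : IsProbabilityMeasure P1 := by
  unfold P1
  infer_instance

theorem UJ18_mono {E F : Set (V → Bool)} (h : E ⊆ F) : Pr E ≤ Pr F := measureReal_mono h

theorem UJ18_union (E F : Set (V → Bool)) : Pr (E ∪ F) ≤ Pr E + Pr F := measureReal_union_le E F

theorem UJ18_nonneg (E : Set (V → Bool)) : 0 ≤ Pr E := measureReal_nonneg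

theorem UJ18_quasi (h8 : UI8_stmt) : ∃ (C : ℝ) (k₀ : ℕ), 1 ≤ C ∧ ∀ g p m : ℕ, 1 ≤ g → 1 ≤ m →
    k₀ + g + 1 ≤ p → a4 p (p + m) * (a4 (p - g - 1) (p - 1) * a4 (p + m + 1) (p + m + g + 1)) ≤
      C * a4 (p - g - 1) (p + m + g + 1) := by
  obtain ⟨C, k₀, hC, h1, -, -, h4, h5⟩ := h8
  refine ⟨C ^ 4, k₀, one_le_pow₀ hC, fun g p m hg hm hp => ?_⟩
  have hC0 : 0 < C := by linarith
  have e1 : a4 (p - g - 1) (p - 1) ≤ C * a4 (p - g - 1) p := by
    have := h4 (p - g - 1) (p - 1) 1 (by omega) (by omega)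
    rw [pow_one, show p - 1 + 1 = p by omega] at this
    exact this
  have e2 : a4 p (p + m) ≤ C * a4 p (p + m + 1) := by
    have := h4 p (p + m) 1 (by omega) (by omega)
    rw [pow_one] at this
    exact this
  have e3 : a4 (p - g - 1) p * a4 p (p + m + 1) ≤ C * a4 (p - g - 1) (p + m + 1) :=
    h1 _ _ _ (by omega) (by omega) (by omega)
  have e4 : a4 (p - g - 1) (p + m + 1) * a4 (p + m + 1) (p + m + g + 1) ≤
      C * a4 (p - g - 1) (p + m + g + 1) := h1 _ _ _ (by omega) (by omega) (by omega)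
  have n1 : 0 < a4 (p - g - 1) (p - 1) := h5 _ _ (by omega) (by omega)
  have n2 : 0 < a4 (p - g - 1) p := h5 _ _ (by omega) (by omega)
  have n3 : 0 < a4 p (p + m) := h5 _ _ (by omega) (by omega)
  have n4 : 0 < a4 p (p + m + 1) := h5 _ _ (by omega) (by omega)
  have n5 : 0 < a4 (p + m + 1) (p + m + g + 1) := h5 _ _ (by omega) (by omega)
  calc a4 p (p + m) * (a4 (p - g - 1) (p - 1) * a4 (p + m + 1) (p + m + g + 1))
      ≤ (C * a4 p (p + m + 1)) * ((C * a4 (p - g - 1) p) * a4 (p + m + 1) (p + m + g + 1)) := by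
        gcongr
    _ = C ^ 2 * (a4 (p - g - 1) p * a4 p (p + m + 1)) * a4 (p + m + 1) (p + m + g + 1) := by ring
    _ ≤ C ^ 2 * (C * a4 (p - g - 1) (p + m + 1)) * a4 (p + m + 1) (p + m + g + 1) := by
        gcongr
    _ = C ^ 3 * (a4 (p - g - 1) (p + m + 1) * a4 (p + m + 1) (p + m + g + 1)) := by ring
    _ ≤ C ^ 3 * (C * a4 (p - g - 1) (p + m + g + 1)) := by gcongr
    _ = C ^ 4 * a4 (p - g - 1) (p + m + g + 1) := by ring

theorem UJ18 (h16 : UJ16_stmt) (h17 : UJ17_stmt) (hLQ : K.LQ_stmt) (h7 : UI7_stmt)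
    (h8 : UI8_stmt) : UJ18_stmt := by
  obtain ⟨c₀, g, k₀, hc₀, hg, hk, h16⟩ := h16
  obtain ⟨C, k₁, hC, hq⟩ := UJ18_quasi h8
  obtain ⟨-, -, -, hF, -, hB⟩ := hLQ
  have hC0 : 0 < 1 + C := by linarith
  refine ⟨min (c₀ / (1 + C)) (1 / 2), g, max k₀ (k₁ + g + 8), lt_min (by positivity) (by norm_num),
    min_le_right _ _, hg, hk.trans (le_max_left _ _), fun p m x hp hm hx => ?_⟩
  set c := min (c₀ / (1 + C)) (1 / 2) with hc
  have hcpos : 0 < c := lt_min (by positivity) (by norm_num)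
  have hc1 : c * (1 + C) ≤ c₀ := by
    have : c ≤ c₀ / (1 + C) := min_le_left _ _
    rwa [le_div_iff₀ hC0] at this
  have hp1 : k₀ ≤ p := (le_max_left _ _).trans hp
  have hp2 : k₁ + g + 8 ≤ p := (le_max_right _ _).trans hp
  have hm1 : k₀ ≤ m := (le_max_left _ _).trans hm
  have hm2 : 1 ≤ m := by omega
  have heven : Even (x.1 + x.2) := Int.even_iff.2 hx
  have key := h16 p m x hp1 hm1 hx
  have hθ : 0 ≤ c * a4 p (p + m) := mul_nonneg hcpos.le (UJ18_nonneg _)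
  have k17 := h17 (c * a4 p (p + m)) p m g x hθ (by omega) hm2 hx
  have hsub : gts x p m g ∩ B4 x (p - g - 2) (p + m + g + 2) ⊆
      (gdE (c * a4 p (p + m)) x p m g ∩ B4 x (p - g - 2) (p + m + g + 2)) ∪
      (gts x p m g ∩ thr x p m g ∩
        {b | Pr {b' | mx (Ag x p m) b b' ∈ thr x p m g} < c * a4 p (p + m)}) := by
    rintro b ⟨hb1, hb2⟩
    by_cases h : c * a4 p (p + m) ≤ Pr {b' | mx (Ag x p m) b b' ∈ thr x p m g}
    · exact Or.inl ⟨⟨hb1, h⟩, hb2⟩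
    · refine Or.inr ⟨⟨hb1, ?_⟩, not_le.1 h⟩
      have h1 := hB x (p - g - 2) (p + m + g + 2) heven (by omega) (by omega) hb2
      exact hF x (p - g - 2) (p - g - 1) (p + m + g + 1) (p + m + g + 2) (by omega) (by omega)
        (by omega) h1
  have h1 := UJ18_mono hsub
  have h2 := UJ18_union (gdE (c * a4 p (p + m)) x p m g ∩ B4 x (p - g - 2) (p + m + g + 2))
    (gts x p m g ∩ thr x p m g ∩
        {b | Pr {b' | mx (Ag x p m) b b' ∈ thr x p m g} < c * a4 p (p + m)})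
  have h3 : Pr (F4 x (p - g - 1) (p + m + g + 1)) = a4 (p - g - 1) (p + m + g + 1) :=
    (h7.2 x (2 ^ (p - g - 1)) (2 ^ (p + m + g + 1)) hx).1
  have h4 := hq g p m hg hm2 (by omega)
  have h5 : 0 ≤ a4 (p - g - 1) (p + m + g + 1) := UJ18_nonneg _
  rw [h3]
  have h6 : c * a4 p (p + m) * (a4 (p - g - 1) (p - 1) * a4 (p + m + 1) (p + m + g + 1)) ≤
      c * (C * a4 (p - g - 1) (p + m + g + 1)) := by
    rw [mul_assoc]
    exact mul_le_mul_of_nonneg_left h4 hcpos.le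
  have h7 : c * (1 + C) * a4 (p - g - 1) (p + m + g + 1) ≤
      c₀ * a4 (p - g - 1) (p + m + g + 1) := mul_le_mul_of_nonneg_right hc1 h5
  nlinarith

end TP

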