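import Pool.Agent.helper49.SP.SpecAS

/-! # sp: B4, number of centres -/

namespace TP

open DP MeasureTheory

theorem B4_hh (n : ℕ) : hh n ≤ 2 * n := by
  unfold hh
  have h1 : (1 : ℝ) ≤ √3 := by
    rw [show (1 : ℝ) = √1 by simp]
    exact Real.sqrt_le_sqrt (by norm_num)
  have h2 : 2 * (n : ℝ) / √3 ≤ ((2 * n : ℕ) : ℝ) := by
    rw [div_le_iff₀ (by positivity)]
    push_cast
    have : (0 : ℝ) ≤ 2 * n := by positivity
    nlinarith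
  exact Nat.floor_le_of_le h2

theorem B4_aux (i e : ℕ) (he : e ≤ i) (a : ℤ) (h0 : 0 ≤ a) (h1 : a ≤ 2 * 2 ^ i)
    (h2 : (2 ^ (i - e + 1) : ℤ) ∣ a) : ∃ w : ℤ, a = w * 2 ^ (i - e + 1) ∧ 0 ≤ w ∧ w ≤ 2 ^ e := by
  obtain ⟨w, rfl⟩ := h2
  have hp : (0 : ℤ) < 2 ^ (i - e + 1) := by positivity
  refine ⟨w, mul_comm _ _, ?_, ?_⟩
  · by_contra h
    push Not at h
    nlinarith
  · have h3 : (2 : ℤ) * 2 ^ i = 2 ^ (i - e + 1) * 2 ^ e := by
      rw [← pow_add, ← pow_succ']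
      congr 1
      omega
    rw [h3] at h1
    exact le_of_mul_le_mul_left h1 hp

theorem B4_mem (i k e : ℕ) (he : e ≤ i) (x : V) (hx : x ∈ GB i k (i - e)) :
    ∃ w : ℤ × ℤ, x = (w.1 * 2 ^ (i - e + 1), w.2 * 2 ^ (i - e + 1)) ∧ 0 ≤ w.1 ∧ w.1 ≤ 2 ^ e ∧
      0 ≤ w.2 ∧ w.2 ≤ 2 ^ e := by
  simp only [GB, Finset.mem_filter, Finset.mem_product, Finset.mem_Icc] at hx
  obtain ⟨⟨⟨h1, h2⟩, h3, h4⟩, h5, h6, -⟩ := hx
  have h7 : ((hh (2 ^ i) : ℕ) : ℤ) ≤ 2 * 2 ^ i := by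
    have := B4_hh (2 ^ i)
    exact_mod_cast this
  obtain ⟨w1, e1, p1, q1⟩ := B4_aux i e he x.1 h1 h2 h5
  obtain ⟨w2, e2, p2, q2⟩ := B4_aux i e he x.2 h3 (h4.trans h7) h6
  exact ⟨(w1, w2), Prod.ext e1 e2, p1, q1, p2, q2⟩

theorem B4 : B4_stmt := by
  intro i k e he he1
  constructor
  · have h1 : (GB i k (i - e)).card ≤
        ((Finset.Icc (0 : ℤ) (2 ^ e)) ×ˢ (Finset.Icc (0 : ℤ) (2 ^ e))).card := by
      classical
      refine Finset.card_le_card_of_injOn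
        (fun x => (x.1 / 2 ^ (i - e + 1), x.2 / 2 ^ (i - e + 1))) ?_ ?_
      · intro x hx
        obtain ⟨w, rfl, h1, h2, h3, h4⟩ := B4_mem i k e he x hx
        have hp : (2 : ℤ) ^ (i - e + 1) ≠ 0 := by positivity
        simp only [Finset.coe_product, Finset.coe_Icc, Set.mem_prod, Set.mem_Icc,
          Int.mul_ediv_cancel _ hp]
        exact ⟨⟨h1, h2⟩, h3, h4⟩
      · intro x hx y hy hxy
        obtain ⟨w, rfl, -⟩ := B4_mem i k e he x hx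
        obtain ⟨w', rfl, -⟩ := B4_mem i k e he y hy
        have hp : (2 : ℤ) ^ (i - e + 1) ≠ 0 := by positivity
        simp only [Int.mul_ediv_cancel _ hp, Prod.mk.injEq] at hxy
        rw [hxy.1, hxy.2]
    rw [Finset.card_product, Int.card_Icc] at h1
    have h2 : ((2 : ℤ) ^ e + 1 - 0).toNat = 2 ^ e + 1 := by
      have : (2 : ℤ) ^ e + 1 - 0 = ((2 ^ e + 1 : ℕ) : ℤ) := by push_cast; ring
      rw [this, Int.toNat_natCast]
    rw [h2] at h1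
    have h3 : ((GB i k (i - e)).card : ℝ) ≤ (2 ^ e + 1) * (2 ^ e + 1) := by exact_mod_cast h1
    refine h3.trans ?_
    have h4 : (1 : ℝ) ≤ 2 ^ e := one_le_pow₀ (by norm_num)
    have h5 : (4 : ℝ) ^ e = 2 ^ e * 2 ^ e := by
      rw [← mul_pow]; norm_num
    rw [h5]
    nlinarith
  · intro x hx
    obtain ⟨w, rfl, h1, h2, h3, h4⟩ := B4_mem i k e he x hx
    refine ⟨(2 * w.1, 2 * w.2), ?_, ?_, ?_, ?_, ?_, ?_⟩
    · refine Prod.ext ?_ ?_ <;> · push_cast; ring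
    · show 0 ≤ 2 * w.1
      linarith
    · show 2 * w.1 ≤ 2 * 2 ^ e
      linarith
    · show 0 ≤ 2 * w.2
      linarith
    · show 2 * w.2 ≤ 2 * 2 ^ e
      linarith
    · show (w.1 * 2 ^ (i - e + 1) + w.2 * 2 ^ (i - e + 1)) % 2 = 0
      rw [pow_succ]
      refine Int.emod_eq_zero_of_dvd ?_
      exact ⟨w.1 * 2 ^ (i - e) + w.2 * 2 ^ (i - e), by ring⟩

end TP

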